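import Pool.Agent.H87.D3.Targets3

/-!
# Row HSN (MP_2697e3_an): the Hessian bound
-/

set_option autoImplicit false

namespace Pool.Agent.H69.D3

open MeasureTheory Metric Set Filter Topology Pool.Agent.H87.SN Pool.Agent.H87.AX Pool.Agent.H87.D3
open scoped ContDiff RealInnerProductSpace ENNReal

private theorem sum_shift (f : ℕ → ℝ≥0∞) (a b n : ℕ) (h : a ≤ b) :
    ∑ i ∈ Finset.range n, f (b + i) ≤ ∑ j ∈ Finset.Icc a (b + n), f j := by
  classical
  calc ∑ i ∈ Finset.range n, f (b + i) = ∑ j ∈ (Finset.range n).image (fun i => b + i), f j :=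
        (Finset.sum_image (by intro x _ y _ h; exact Nat.add_left_cancel h)).symm
    _ ≤ _ := by
        refine Finset.sum_le_sum_of_subset ?_
        intro x hx
        obtain ⟨i, hi, rfl⟩ := Finset.mem_image.1 hx
        have := Finset.mem_range.1 hi
        exact Finset.mem_Icc.2 ⟨by omega, by omega⟩

private theorem sj_pos (j : ℕ) : 0 < sj j := by
  unfold sj
  positivity

private theorem sj_tendsto : Tendsto sj atTop (𝓝 0) := by
  unfold sj
  exact tendsto_pow_atTop_nhds_zero_of_lt_one (by norm_num) (by norm_num)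

/-- the points which are singular at all scales -/
private theorem null_set (hMUF : T_MUF) (hVOL : T_VOL) {m : ℕ} (G : V → V →L[ℝ] E m)
    (hG : MemLp G 2 (volume.restrict (ball (0 : V) 2))) (e : ℝ) (he : 0 < e) (j₁ : ℕ) :
    volume {x : V | x ∈ ball 0 1 ∧ ∀ j, j₁ ≤ j → e ≤ th G x (sj j)} = 0 := by
  obtain ⟨hfin, -⟩ := hMUF m G hG
  set M : ℝ := (mu G).real univ with hM
  have h1 : ∀ i : ℕ, volume {x : V | x ∈ ball 0 1 ∧ ∀ j, j₁ ≤ j → e ≤ th G x (sj j)} ≤
      ENNReal.ofReal (8 * M / e * sj (i + j₁) ^ 2) := by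
    intro i
    refine (measure_mono ?_).trans (hVOL m G hG e M 0 1 (sj (i + j₁)) he (sj_pos _) zero_le_one
      (measureReal_mono (subset_univ _) hfin))
    intro x hx
    exact ⟨hx.1, hx.2 _ (Nat.le_add_left _ _)⟩
  have h2 : Tendsto (fun i : ℕ => ENNReal.ofReal (8 * M / e * sj (i + j₁) ^ 2)) atTop (𝓝 0) := by
    have h3 : Tendsto (fun i : ℕ => 8 * M / e * sj (i + j₁) ^ 2) atTop (𝓝 0) := by
      have h4 : Tendsto (fun i : ℕ => sj (i + j₁)) atTop (𝓝 0) :=
        sj_tendsto.comp (tendsto_add_atTop_nat j₁)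
      have h5 := (h4.pow 2).const_mul (8 * M / e)
      simpa using h5
    have h6 := ENNReal.tendsto_ofReal h3
    rwa [ENNReal.ofReal_zero] at h6
  exact le_antisymm (ge_of_tendsto' h2 h1) zero_le

theorem pf_HSN (hMUF : T_MUF) (hVOL : T_VOL) (hSUM : T_SUM) (hPKW : T_PKW) (hHSJ : T_HSJ)
    (hHS0 : T_HS0) : T_HSN := by
  intro m L Λ ε hL hΛ hε
  obtain ⟨e, C, ν, B, q, K, he, heΛ, hC, hq, hν, hB, hEP, hS⟩ := hSUM m L Λ ε hL hΛ hε
  obtain ⟨C', hC', hJ⟩ := hHSJ m L Λ ε e C ν q K hL hΛ he hC (by omega) hν hEP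
  obtain ⟨C₀, hC₀, h0⟩ := hHS0 m L Λ ε e (4 * q + 5) hL hΛ he hEP (by omega)
  obtain ⟨C₁, hC₁, hP⟩ := hPKW Λ ν (4 * q) K hΛ.le hν
  refine ⟨C₀ + C' * (C₁ + B + B), by positivity, ?_⟩
  intro U u G hSM
  obtain ⟨hR, hN⟩ := hS U u G hSM
  have hJ' := hJ U u G hSM hR
  have h0' := h0 U u G hSM
  have hP' := hP m G hSM.gd
  set A₀ : Set V := {x | x ∈ ball 0 1 ∧ th G x (sj (4 * q + 5)) < e} with hA₀
  set A : ℕ → Set V := fun i => {x | x ∈ ball 0 1 ∧ e ≤ th G x (sj (4 * q + 5 + i)) ∧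
    th G x (sj (4 * q + 5 + i + 1)) < e} with hA
  set Z : Set V := {x | x ∈ ball 0 1 ∧ ∀ j, 4 * q + 5 ≤ j → e ≤ th G x (sj j)} with hZ
  have hZ0 : volume Z = 0 := null_set hMUF hVOL G hSM.gd.memG e he (4 * q + 5)
  have hcov : ball (0 : V) 1 ⊆ A₀ ∪ (Z ∪ ⋃ i, A i) := by
    intro x hx
    by_cases h1 : th G x (sj (4 * q + 5)) < e
    · exact Or.inl ⟨hx, h1⟩
    by_cases h2 : ∀ i, e ≤ th G x (sj (4 * q + 5 + i))
    · refine Or.inr (Or.inl ⟨hx, fun j hj => ?_⟩)
      have h3 := h2 (j - (4 * q + 5))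
      have h4 : 4 * q + 5 + (j - (4 * q + 5)) = j := by omega
      rwa [h4] at h3
    · have h3 : ∃ i, ¬ e ≤ th G x (sj (4 * q + 5 + i)) := not_forall.1 h2
      classical
      have h4 := Nat.find_spec h3
      have h5 : Nat.find h3 ≠ 0 := by
        intro h6
        rw [h6] at h4
        exact h4 (not_lt.1 h1)
      obtain ⟨i, hi⟩ := Nat.exists_eq_succ_of_ne_zero h5
      have h6 : e ≤ th G x (sj (4 * q + 5 + i)) := by
        by_contra h7
        have := Nat.find_min' h3 h7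
        omega
      rw [hi] at h4
      exact Or.inr (Or.inr (mem_iUnion.2 ⟨i, hx, h6, not_le.1 h4⟩))
  have hsum : ∑' i, hInt u (A i) ≤ ENNReal.ofReal (C' * (C₁ + B + B)) := by
    refine ENNReal.tsum_le_of_sum_range_le fun n => ?_
    have h1 : ∀ i ∈ Finset.range n, hInt u (A i) ≤ ENNReal.ofReal C' *
        (bad G (4 * q) K ν (4 * q + 4 + i) + Hj G e (24 * q + 3 + i) + Hj G e (7 + i)) := by
      intro i _
      have h2 := hJ' (4 * q + 5 + i) (by omega)
      have e1 : 4 * q + 5 + i - 1 = 4 * q + 4 + i := by omega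
      have e2 : 4 * q + 4 + i + 20 * q - 1 = 24 * q + 3 + i := by omega
      have e3 : 4 * q + 4 + i + 3 - 4 * q = 7 + i := by omega
      rw [e1, e2, e3] at h2
      exact h2
    refine (Finset.sum_le_sum h1).trans ?_
    rw [← Finset.mul_sum, Finset.sum_add_distrib, Finset.sum_add_distrib,
      ENNReal.ofReal_mul hC', ENNReal.ofReal_add (by positivity) hB, ENNReal.ofReal_add hC₁ hB]
    refine mul_le_mul_right ?_ _
    refine add_le_add (add_le_add ?_ ?_) ?_
    · exact (sum_shift (bad G (4 * q) K ν) (4 * q + 4) (4 * q + 4) n le_rfl).trans (hP' _)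
    · exact (sum_shift (Hj G e) 4 (24 * q + 3) n (by omega)).trans (hN _)
    · exact (sum_shift (Hj G e) 4 7 n (by omega)).trans (hN _)
  have hfin : hInt u (ball 0 1) ≤ hInt u A₀ + (hInt u Z + ∑' i, hInt u (A i)) := by
    unfold hInt
    refine (lintegral_mono_set hcov).trans ?_
    refine (lintegral_union_le _ _ _).trans (add_le_add le_rfl ?_)
    exact (lintegral_union_le _ _ _).trans (add_le_add le_rfl (lintegral_iUnion_le _ _))
  have hZ1 : hInt u Z = 0 := by
    unfold hInt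
    exact setLIntegral_measure_zero _ _ hZ0
  rw [hZ1, zero_add] at hfin
  rw [ENNReal.ofReal_add hC₀ (by positivity)]
  exact hfin.trans (add_le_add h0' hsum)

end Pool.Agent.H69.D3
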