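import Pool.Agent.H81.D3.Targets

/-!
# Row LRW (MP_ee74d2_an): lower bound for the height in a state
-/

set_option autoImplicit false

namespace Pool.Agent.H69.D3

open MeasureTheory Set Pool.Agent.H83.G Pool.Agent.H81.D3

private theorem lrw_num (A R H w D C I p q : ℝ) (hA : 0 < A) (hR : 0 < R) (hH : 0 < H)
    (hw : 0 < w) (hD : 0 < D) (hC : 0 < C) (CP CB : ℝ) (hCP : 0 < CP) (hCB : 0 < CB)
    (hCC : C = CP * CB) (hI : 0 < I)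
    (h1 : A ^ (4 / 3 : ℝ) * R ^ (1 / 3 : ℝ) * I ≤ D * (q * H ^ (10 / 3 : ℝ) * w ^ (2 / 3 : ℝ)))
    (h2 : q ≤ p * (CP * D ^ 4 * w ^ 4)) (h3 : p * H ^ 2 ≤ D * CB * (w ^ 4)⁻¹ * I) :
    (A * R / (w ^ 2 * H)) ^ (4 / 3 : ℝ) ≤ C * D ^ (6 : ℝ) * (R / w ^ 2) := by
  have e1 : H ^ (10 / 3 : ℝ) = H ^ 2 * H ^ (4 / 3 : ℝ) := by
    rw [← Real.rpow_natCast H 2, ← Real.rpow_add hH]
    norm_num
  have hH4 : 0 < H ^ (4 / 3 : ℝ) := Real.rpow_pos_of_pos hH _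
  have hw2 : 0 < w ^ (2 / 3 : ℝ) := Real.rpow_pos_of_pos hw _
  have h4 : q * H ^ (10 / 3 : ℝ) ≤ CP * CB * D ^ 5 * I * H ^ (4 / 3 : ℝ) := by
    calc q * H ^ (10 / 3 : ℝ) = q * H ^ 2 * H ^ (4 / 3 : ℝ) := by rw [e1]; ring
      _ ≤ (p * (CP * D ^ 4 * w ^ 4)) * H ^ 2 * H ^ (4 / 3 : ℝ) := by gcongr
      _ = (p * H ^ 2) * (CP * D ^ 4 * w ^ 4) * H ^ (4 / 3 : ℝ) := by ring
      _ ≤ (D * CB * (w ^ 4)⁻¹ * I) * (CP * D ^ 4 * w ^ 4) * H ^ (4 / 3 : ℝ) := by gcongr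
      _ = CP * CB * D ^ 5 * I * H ^ (4 / 3 : ℝ) * (w ^ 4 * (w ^ 4)⁻¹) := by ring
      _ = CP * CB * D ^ 5 * I * H ^ (4 / 3 : ℝ) := by
        rw [mul_inv_cancel₀ (by positivity), mul_one]
  have h5 : A ^ (4 / 3 : ℝ) * R ^ (1 / 3 : ℝ) * I ≤
      (C * D ^ 6 * H ^ (4 / 3 : ℝ) * w ^ (2 / 3 : ℝ)) * I := by
    calc A ^ (4 / 3 : ℝ) * R ^ (1 / 3 : ℝ) * I ≤ D * (q * H ^ (10 / 3 : ℝ) * w ^ (2 / 3 : ℝ)) := h1
      _ ≤ D * ((CP * CB * D ^ 5 * I * H ^ (4 / 3 : ℝ)) * w ^ (2 / 3 : ℝ)) := by gcongr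
      _ = (C * D ^ 6 * H ^ (4 / 3 : ℝ) * w ^ (2 / 3 : ℝ)) * I := by rw [hCC]; ring
  have h6 : A ^ (4 / 3 : ℝ) * R ^ (1 / 3 : ℝ) ≤ C * D ^ 6 * H ^ (4 / 3 : ℝ) * w ^ (2 / 3 : ℝ) :=
    le_of_mul_le_mul_right h5 hI
  have e2 : R ^ (4 / 3 : ℝ) = R ^ (1 / 3 : ℝ) * R := by
    conv_rhs => rw [← Real.rpow_one R, ← Real.rpow_mul hR.le, ← Real.rpow_add hR]
    norm_num
  have e3 : (w ^ 2) ^ (4 / 3 : ℝ) = w ^ (2 / 3 : ℝ) * w ^ 2 := by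
    rw [← Real.rpow_natCast w 2, ← Real.rpow_mul hw.le, ← Real.rpow_add hw]
    norm_num
  have e4 : D ^ (6 : ℝ) = D ^ 6 := by
    rw [← Real.rpow_natCast D 6]
    norm_num
  rw [Real.div_rpow (by positivity) (by positivity), Real.mul_rpow hA.le hR.le,
    Real.mul_rpow (by positivity) hH.le, e2, e3, e4, div_le_iff₀ (by positivity)]
  have e5 : C * D ^ 6 * (R / w ^ 2) * (w ^ (2 / 3 : ℝ) * w ^ 2 * H ^ (4 / 3 : ℝ)) =
      (C * D ^ 6 * H ^ (4 / 3 : ℝ) * w ^ (2 / 3 : ℝ)) * R := by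
    field_simp
  rw [e5, ← mul_assoc]
  exact mul_le_mul_of_nonneg_right h6 hR.le

theorem pf_LRW (hRSE : T_RSE) (hGCE : T_GCE) (hCTG : T_CTG) (hBA2 : T_BA2) (hPTS : T_PTS) :
    T_LRW := by
  classical
  obtain ⟨CP, hCP, hP1, -⟩ := hPTS
  refine ⟨6, by norm_num, ?_⟩
  intro L β hL hβ
  obtain ⟨CR, hCR, hRS⟩ := hRSE L β hβ
  obtain ⟨CB, hCB, hB⟩ := hBA2 L
  refine ⟨CP * CB, by nlinarith, ?_⟩
  intro R A H₀ D H G X w P Q hR1 hA hG hX hE hSt hwR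
  have hw1 : 1 ≤ w := hSt.w1
  have hw : (1 : ℝ) ≤ w := by exact_mod_cast hw1
  have hw0 : (0 : ℝ) < w := by linarith
  have hR0 : 0 < R := by linarith
  have hD := hSt.D1
  have hD0 : 0 < D := by linarith
  have hH := hSt.H0
  have hI0 : 0 < ∫ ζ, ‖G ζ‖ ^ 2 := by
    have h2 : 0 < A ^ (4 / 3 : ℝ) * R ^ (1 / 3 : ℝ) := by positivity
    exact (mul_pos_iff_of_pos_left h2).1 hE
  -- the planks
  have hRw : 1 ≤ R * (w : ℝ)⁻¹ ^ 2 := by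
    rw [inv_pow, ← div_eq_mul_inv, le_div_iff₀ (by positivity), one_mul]
    exact hwR
  have hInn : ∀ κ, 0 ≤ ∫ ζ, ‖Gc β w G κ ζ‖ ^ 2 := fun κ =>
    integral_nonneg fun ζ => by positivity
  have h1 := hCTG D w P (fun κ => CB * (∫ ζ, ‖Gc β w G κ ζ‖ ^ 2) / H ^ 2) hD0.le
    (fun p hp => (hSt.pk p hp).1) hSt.sep hSt.tg
    (fun κ => div_nonneg (mul_nonneg (by linarith) (hInn κ)) (by positivity))
    (by
      intro κ hκ Y hY hYP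
      change (Y.card : ℝ) ≤ CB * (∫ ζ, ‖Gc β w G κ ζ‖ ^ 2) / H ^ 2
      rw [le_div_iff₀ (by positivity)]
      have hC : Cls L (1 / 4) (R * (w : ℝ)⁻¹ ^ 2) (CR * A) (Gc β w G κ) :=
        (hRS (1 / 4) R A (w : ℝ)⁻¹ (ctr (w : ℝ)⁻¹ κ) G (by norm_num) (by norm_num) hA
          (inv_pos.2 hw0) (inv_le_one_of_one_le₀ hw) hRw hG).1
      refine hB (R * (w : ℝ)⁻¹ ^ 2) (CR * A) H (Gc β w G κ) Y hRw hH.le hC hY ?_
      intro z hz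
      obtain ⟨t, ht⟩ := hYP z hz
      exact (hSt.pk _ ht).2)
  have h2 := hGCE L β R A G w hβ hR1 hA hw1 hG
  have hPc : (P.card : ℝ) * H ^ 2 ≤ D * CB * ((w : ℝ) ^ 4)⁻¹ * ∫ ζ, ‖G ζ‖ ^ 2 := by
    have h3 : ∑ κ ∈ Ks 2 (w : ℝ)⁻¹, CB * (∫ ζ, ‖Gc β w G κ ζ‖ ^ 2) / H ^ 2 =
        CB / H ^ 2 * ∑ κ ∈ Ks 2 (w : ℝ)⁻¹, ∫ ζ, ‖Gc β w G κ ζ‖ ^ 2 := by
      rw [Finset.mul_sum]
      refine Finset.sum_congr rfl fun κ _ => ?_
      ring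
    rw [h3] at h1
    have hCB0 : 0 < CB := by linarith
    calc (P.card : ℝ) * H ^ 2 ≤
          (D * (CB / H ^ 2 * ∑ κ ∈ Ks 2 (w : ℝ)⁻¹, ∫ ζ, ‖Gc β w G κ ζ‖ ^ 2)) * H ^ 2 := by
          gcongr
      _ ≤ (D * (CB / H ^ 2 * (((w : ℝ) ^ 4)⁻¹ * ∫ ζ, ‖G ζ‖ ^ 2))) * H ^ 2 := by gcongr
      _ = D * CB * ((w : ℝ) ^ 4)⁻¹ * ∫ ζ, ‖G ζ‖ ^ 2 := by
          field_simp
  -- the incidences
  have hQc : (Q.card : ℝ) ≤ P.card * (CP * D ^ 4 * (w : ℝ) ^ 4) := by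
    have h3 : Q.card = ∑ p ∈ P, (Q.filter fun q => q.2 = p).card :=
      Finset.card_eq_sum_card_fiberwise fun q hq => (hSt.rel q hq).2.1
    rw [h3]
    push_cast
    calc ∑ p ∈ P, ((Q.filter fun q => q.2 = p).card : ℝ) ≤
          ∑ _p ∈ P, CP * D ^ 4 * (w : ℝ) ^ 4 := by
          refine Finset.sum_le_sum fun p hp => ?_
          have h4 : ((Q.filter fun q => q.2 = p).image fun q => q.1).card =
              (Q.filter fun q => q.2 = p).card := by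
            refine Finset.card_image_of_injOn ?_
            intro q hq q' hq' h
            have hq2 := (Finset.mem_filter.1 hq).2
            have hq2' := (Finset.mem_filter.1 hq').2
            exact Prod.ext h (hq2.trans hq2'.symm)
          rw [← h4]
          refine hP1 D w p.2.1 p.2.2 _ hD hw1 (hSt.pk p hp).1 ?_ ?_
          · intro z hz z' hz' hne
            obtain ⟨q, hq, rfl⟩ := Finset.mem_image.1 hz
            obtain ⟨q', hq', rfl⟩ := Finset.mem_image.1 hz'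
            exact hX _ (hSt.rel q (Finset.mem_filter.1 hq).1).1 _
              (hSt.rel q' (Finset.mem_filter.1 hq').1).1 hne
          · intro z hz
            obtain ⟨q, hq, rfl⟩ := Finset.mem_image.1 hz
            have h5 := (hSt.rel q (Finset.mem_filter.1 hq).1).2.2
            rw [(Finset.mem_filter.1 hq).2] at h5
            exact h5
      _ = P.card * (CP * D ^ 4 * (w : ℝ) ^ 4) := by
          rw [Finset.sum_const, nsmul_eq_mul]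
  exact lrw_num A R H w D (CP * CB) (∫ ζ, ‖G ζ‖ ^ 2) P.card Q.card hA hR0 hH hw0 hD0
    (by nlinarith) CP CB (by linarith) (by linarith) rfl hI0 hSt.low hQc hPc

end Pool.Agent.H69.D3
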