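import Pool.Agent.H87.D3.Targets2

/-!
# Row MAS (MP_2697e3_an): masses and moments of windows
-/

set_option autoImplicit false

namespace Pool.Agent.H69.D3

open MeasureTheory Metric Set Filter Topology Pool.Agent.H87.SN Pool.Agent.H87.D3
open scoped ContDiff RealInnerProductSpace ENNReal

private theorem continuous_bw (z₀ r : ℝ) : Continuous (bw z₀ r) := by
  unfold bw
  fun_prop

private theorem bw_bd (z₀ r : ℝ) (hr : 0 < r) (z : ℝ) : |bw z₀ r z| ≤ r⁻¹ := by
  unfold bw
  have h0 : 0 ≤ r⁻¹ := (inv_pos.2 hr).le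
  have h1 : 0 ≤ max 0 (1 - |(z - z₀) / r|) := le_max_left _ _
  have h2 : max 0 (1 - |(z - z₀) / r|) ≤ 1 :=
    max_le zero_le_one (by linarith [abs_nonneg ((z - z₀) / r)])
  rw [abs_of_nonneg (mul_nonneg h0 h1)]
  calc r⁻¹ * max 0 (1 - |(z - z₀) / r|) ≤ r⁻¹ * 1 := mul_le_mul_of_nonneg_left h2 h0
    _ = r⁻¹ := mul_one _

private theorem continuous_chh (h : ℝ) : Continuous (chh h) := by
  unfold chh
  refine Real.smoothTransition.continuous.comp ?_
  fun_prop

private theorem chh_bd (h : ℝ) (x : V) : |chh h x| ≤ 1 := by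
  unfold chh
  rw [abs_of_nonneg (Real.smoothTransition.nonneg _)]
  exact Real.smoothTransition.le_one _

private theorem tz_int {m : ℕ} {G : V → V →L[ℝ] E m} {μ : Measure V} (hG : MemLp G 2 μ) :
    Integrable (fun x => tz (G x)) μ := by
  have h1 : ∀ v : V, Integrable (fun x => ‖G x v‖ ^ 2) μ := by
    intro v
    have h2 : MemLp (fun x => G x v) 2 μ :=
      (ContinuousLinearMap.apply ℝ (E m) v).comp_memLp' hG
    exact h2.integrable_norm_pow (by norm_num)
  unfold tz nsq nzs
  refine Integrable.sub (integrable_finsetSum _ fun i _ => h1 _) (Integrable.const_mul ?_ 2)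
  exact integrable_finsetSum _ fun i _ => h1 _

private theorem wt_int {m : ℕ} {G : V → V →L[ℝ] E m}
    (hG : MemLp G 2 (volume.restrict (ball (0 : V) 2))) (g : V → ℝ) (B : ℝ) (hg : Continuous g)
    (hB : ∀ x ∈ ball (0 : V) 2, |g x| ≤ B) :
    Integrable (fun x => g x * tz (G x)) (volume.restrict (ball (0 : V) 2)) := by
  refine (tz_int hG).bdd_mul (c := B) hg.aestronglyMeasurable ?_
  rw [ae_restrict_iff' measurableSet_ball]
  exact Filter.Eventually.of_forall fun x hx => hB x hx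

private theorem coord_bd (x : V) (hx : x ∈ ball (0 : V) 2) (j : Fin (1 + 2)) : |x j| ≤ 2 := by
  have h1 : |x j| ≤ ‖x‖ := by
    have := PiLp.norm_apply_le x j
    rwa [Real.norm_eq_abs] at this
  have h2 : ‖x‖ < 2 := mem_ball_zero_iff.1 hx
  linarith

theorem pf_MAS (hCNS : T_CNS) (hBMP : T_BMP) : T_MAS := by
  obtain ⟨C, hC, hCNS⟩ := hCNS
  refine ⟨10 * C, by positivity, ?_⟩
  intro m G hG hst h Z z₀ r hh hh8 hZ5 hZ1 hr hzr
  have hZ0 : 0 < Z := by linarith
  obtain ⟨hc1, hc2⟩ := hCNS m G hG hst h Z hh hh8 hZ0 hZ1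
  obtain ⟨⟨φ, p1, p2, p3, p4⟩, ⟨ψ, q1, q2, q3, q4, q5⟩, ⟨χ, r1, r2, r3, r4⟩⟩ :=
    hBMP Z z₀ r hZ5 hZ1 hr hzr
  have hcc := continuous_chh h
  have hp2 : Continuous fun x : V => x 2 := by fun_prop
  have i1 : ∀ z s : ℝ, 0 < s → Integrable (fun x : V => chh h x * bw z s (x 2) * tz (G x))
      (volume.restrict (ball (0 : V) 2)) := by
    intro z s hs
    refine wt_int hG (fun x => chh h x * bw z s (x 2)) s⁻¹
      (hcc.mul ((continuous_bw z s).comp hp2)) ?_
    intro x _
    rw [abs_mul]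
    calc |chh h x| * |bw z s (x 2)| ≤ 1 * s⁻¹ :=
          mul_le_mul (chh_bd h x) (bw_bd z s hs _) (abs_nonneg _) zero_le_one
      _ = s⁻¹ := one_mul _
  have i2 : ∀ (z s : ℝ) (j : Fin (1 + 2)), 0 < s →
      Integrable (fun x : V => chh h x * bw z s (x 2) * x j * tz (G x))
      (volume.restrict (ball (0 : V) 2)) := by
    intro z s j hs
    refine wt_int hG (fun x => chh h x * bw z s (x 2) * x j) (s⁻¹ * 2)
      ((hcc.mul ((continuous_bw z s).comp hp2)).mul (by fun_prop)) ?_
    intro x hx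
    have hs' : 0 ≤ s⁻¹ := (inv_pos.2 hs).le
    rw [abs_mul, abs_mul]
    refine mul_le_mul ?_ (coord_bd x hx j) (abs_nonneg _) hs'
    calc |chh h x| * |bw z s (x 2)| ≤ 1 * s⁻¹ :=
          mul_le_mul (chh_bd h x) (bw_bd z s hs _) (abs_nonneg _) zero_le_one
      _ = s⁻¹ := one_mul _
  have hIn : 0 ≤ In G h Z := by
    unfold In
    refine integral_nonneg fun x => ?_
    exact Finset.sum_nonneg fun _ _ => sq_nonneg _
  have hCI : 0 ≤ C / h * In G h Z := by positivity
  refine ⟨?_, ?_, ?_⟩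
  · have e1 : ms G h z₀ r - ms G h (1 / 4) (1 / 16) =
        ∫ x in ball (0 : V) 2, chh h x * deriv φ (x 2) * tz (G x) := by
      unfold ms
      rw [← integral_sub (i1 z₀ r hr) (i1 (1 / 4) (1 / 16) (by norm_num))]
      refine integral_congr_ae (Filter.Eventually.of_forall fun x => ?_)
      change _ = chh h x * deriv φ (x 2) * tz (G x)
      rw [p4]
      ring
    rw [e1]
    refine (hc1 φ 10 p1 p2 p3).trans (le_of_eq ?_)
    ring
  · intro j hj
    have e1 : mo G h j z₀ r - ((1 / 2 + 2 * z₀) * mo G h j (1 / 4) (1 / 16) +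
        (1 / 2 - 2 * z₀) * mo G h j (-(1 / 4)) (1 / 16)) =
        ∫ x in ball (0 : V) 2, chh h x * deriv (deriv ψ) (x 2) * x j * tz (G x) := by
      unfold mo
      have k1 := (i2 (1 / 4) (1 / 16) j (by norm_num)).const_mul (1 / 2 + 2 * z₀)
      have k2 := (i2 (-(1 / 4)) (1 / 16) j (by norm_num)).const_mul (1 / 2 - 2 * z₀)
      have k3 : Integrable (fun x : V =>
          (1 / 2 + 2 * z₀) * (chh h x * bw (1 / 4) (1 / 16) (x 2) * x j * tz (G x)) +
          (1 / 2 - 2 * z₀) * (chh h x * bw (-(1 / 4)) (1 / 16) (x 2) * x j * tz (G x)))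
          (volume.restrict (ball (0 : V) 2)) := k1.add k2
      rw [← integral_const_mul, ← integral_const_mul, ← integral_add k1 k2,
        ← integral_sub (i2 z₀ r j hr) k3]
      refine integral_congr_ae (Filter.Eventually.of_forall fun x => ?_)
      change _ = chh h x * deriv (deriv ψ) (x 2) * x j * tz (G x)
      rw [q5]
      ring
    rw [e1]
    refine (hc2 ψ 10 j q1 q2 q3 q4 hj).trans (le_of_eq ?_)
    ring
  · have e1 : ∫ x in ball (0 : V) 2, chh h x * ((x 2 - z₀) * bw z₀ r (x 2)) * tz (G x) =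
        ∫ x in ball (0 : V) 2, chh h x * deriv χ (x 2) * tz (G x) := by
      refine integral_congr_ae (Filter.Eventually.of_forall fun x => ?_)
      change chh h x * ((x 2 - z₀) * bw z₀ r (x 2)) * tz (G x) = chh h x * deriv χ (x 2) * tz (G x)
      rw [r4]
    rw [e1]
    refine (hc1 χ r r1 r2 r3).trans ?_
    have e2 : C / h * r * In G h Z = r * (C / h * In G h Z) := by ring
    have e3 : r * (10 * C / h * In G h Z) = r * (C / h * In G h Z) + 9 * (r * (C / h * In G h Z)) := by
      ring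
    rw [e2, e3]
    have : 0 ≤ r * (C / h * In G h Z) := by positivity
    linarith

end Pool.Agent.H69.D3
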